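import Mathlib

/-!
# Packet B1 for MP_ec852d_co: parity representation of drawings
-/

namespace Pool.Agent.Helper69.KC

open Complex

theorem b1_lift_unique {l l' : ℝ → ℂ} (hl : ContinuousOn l (Set.Icc 0 1))
    (hl' : ContinuousOn l' (Set.Icc 0 1))
    (h : ∀ r ∈ Set.Icc (0 : ℝ) 1, exp (l r) = exp (l' r)) :
    l 1 - l 0 = l' 1 - l' 0 := by
  have hd : DiscreteTopology (AddSubgroup.zmultiples (2 * Real.pi * I : ℂ)) :=
    NormedSpace.discreteTopology_zmultiples _
  have hm : Set.MapsTo (fun r => l r - l' r) (Set.Icc (0 : ℝ) 1)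
      (AddSubgroup.zmultiples (2 * Real.pi * I : ℂ) : Set ℂ) := by
    intro r hr
    have h1 := (exp_eq_exp_iff_exists_int.1 (h r hr))
    obtain ⟨n, hn⟩ := h1
    refine AddSubgroup.mem_zmultiples_iff.2 ⟨n, ?_⟩
    simp only [zsmul_eq_mul]
    rw [hn]
    ring
  obtain ⟨y, -, hy⟩ := (isPreconnected_Icc (a := (0 : ℝ)) (b := 1)).eqOn_const_of_mapsTo
    (isDiscrete_iff_discreteTopology.mpr hd) (hl.sub hl') hm ⟨0, zero_mem _⟩
  have e0 := hy (show (0 : ℝ) ∈ Set.Icc (0 : ℝ) 1 by simp)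
  have e1 := hy (show (1 : ℝ) ∈ Set.Icc (0 : ℝ) 1 by simp)
  simp only [Function.const_apply, Pi.sub_apply] at e0 e1
  linear_combination e1 - e0

theorem b1_arg_of_exp {l z : ℂ} (h : exp l = z) : ∃ n : ℤ, l.im = arg z + 2 * Real.pi * n := by
  have hz : z ≠ 0 := h ▸ exp_ne_zero l
  have h1 : exp l = exp (log z) := by rw [h, exp_log hz]
  obtain ⟨n, hn⟩ := exp_eq_exp_iff_exists_int.1 h1
  refine ⟨n, ?_⟩
  rw [hn]
  simp [log_im]
  ring

theorem b1_winding (p : ℝ → ℂ) : ∃ K : ℤ, ∀ l : ℝ → ℂ, ContinuousOn l (Set.Icc 0 1) →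
    (∀ r ∈ Set.Icc (0 : ℝ) 1, exp (l r) = p r) →
    (l 1).im - (l 0).im = arg (p 1) - arg (p 0) + 2 * Real.pi * K := by
  by_cases hex : ∃ l : ℝ → ℂ, ContinuousOn l (Set.Icc 0 1) ∧
      (∀ r ∈ Set.Icc (0 : ℝ) 1, exp (l r) = p r)
  · obtain ⟨l, hl, hlp⟩ := hex
    obtain ⟨n0, hn0⟩ := b1_arg_of_exp (hlp 0 (by simp))
    obtain ⟨n1, hn1⟩ := b1_arg_of_exp (hlp 1 (by simp))
    refine ⟨n1 - n0, fun l' hl' hlp' => ?_⟩
    have h1 := b1_lift_unique hl' hl (fun r hr => by rw [hlp r hr, hlp' r hr])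
    have h2 : (l' 1).im - (l' 0).im = (l 1).im - (l 0).im := by
      have := congrArg Complex.im h1
      simpa using this
    rw [h2, hn0, hn1]
    push_cast
    ring
  · refine ⟨0, fun l hl hlp => absurd ⟨l, hl, hlp⟩ hex⟩

/-- `1` if the argument is positive, `0` otherwise. -/
noncomputable def b1_beta (z : ℂ) : ℤ := if 0 < arg z then 1 else 0

theorem b1_beta_neg {z : ℂ} (hz : z ≠ 0) : b1_beta z + b1_beta (-z) = 1 ∧
    arg z - arg (-z) = Real.pi * (2 * (b1_beta z : ℝ) - 1) := by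
  have hpi := Real.pi_pos
  unfold b1_beta
  by_cases h : 0 < z.im ∨ z.im = 0 ∧ z.re < 0
  · have h1 := arg_neg_eq_arg_sub_pi_iff.2 h
    have h2 : 0 < arg z := by
      have h3 := neg_pi_lt_arg (-z)
      rw [h1] at h3
      linarith
    have h4 : ¬ 0 < arg (-z) := by
      have h3 := arg_le_pi z
      rw [h1]
      linarith
    rw [if_pos h2, if_neg h4, h1]
    refine ⟨by norm_num, ?_⟩
    push_cast
    ring
  · have h' : z.im < 0 ∨ z.im = 0 ∧ 0 < z.re := by
      push Not at h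
      rcases lt_or_eq_of_le h.1 with h1 | h1
      · left; exact h1
      · right
        refine ⟨h1, lt_of_le_of_ne (h.2 h1) ?_⟩
        intro h2
        exact hz (Complex.ext h2.symm h1)
    have h1 := arg_neg_eq_arg_add_pi_iff.2 h'
    have h2 : ¬ 0 < arg z := by
      have h3 := arg_le_pi (-z)
      rw [h1] at h3
      linarith
    have h4 : 0 < arg (-z) := by
      have h3 := neg_pi_lt_arg z
      rw [h1]
      linarith
    rw [if_neg h2, if_pos h4, h1]
    refine ⟨by norm_num, ?_⟩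
    push_cast
    ring

/-- Projection of the line onto the unit interval. -/
noncomputable def b1_clamp (r : ℝ) : ℝ := max 0 (min r 1)

theorem b1_clamp_mem (r : ℝ) : b1_clamp r ∈ Set.Icc (0 : ℝ) 1 := by
  unfold b1_clamp
  refine ⟨le_max_left _ _, max_le zero_le_one (min_le_right _ _)⟩

theorem b1_clamp_of_mem {r : ℝ} (hr : r ∈ Set.Icc (0 : ℝ) 1) : b1_clamp r = r := by
  unfold b1_clamp
  rw [min_eq_left hr.2, max_eq_right hr.1]

theorem b1_clamp_cont : Continuous b1_clamp := by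
  unfold b1_clamp
  fun_prop

/-- A continuous logarithm on the plane. -/
theorem b1_log (F : ℝ × ℝ → ℂ) (hF : Continuous F) (h0 : ∀ z, F z ≠ 0) :
    ∃ L : ℝ × ℝ → ℂ, Continuous L ∧ ∀ z, exp (L z) = F z := by
  have hsc : IsSimplyConnected (Set.univ : Set (ℝ × ℝ)) := by
    have : ContractibleSpace (Set.univ : Set (ℝ × ℝ)) :=
      (convex_univ (𝕜 := ℝ)).contractibleSpace ⟨0, trivial⟩
    have h2 : SimplyConnectedSpace (Set.univ : Set (ℝ × ℝ)) := inferInstance
    exact h2
  obtain ⟨L, hL, hL'⟩ := Complex.exists_continuousOn_eqOn_exp_comp hsc isOpen_univ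
    hF.continuousOn (by rintro ⟨z, -, hz⟩; exact h0 z hz)
  refine ⟨L, continuousOn_univ.1 hL, fun z => hL' (Set.mem_univ z)⟩

theorem parity_rep {V E : Type} (pos : V → ℂ) (hpos : Function.Injective pos)
    (s t : E → V) (hst : ∀ e, s e ≠ t e) (arc : E → ℝ → ℂ)
    (hc : ∀ e, ContinuousOn (arc e) (Set.Icc 0 1))
    (h0 : ∀ e, arc e 0 = pos (s e)) (h1 : ∀ e, arc e 1 = pos (t e))
    (hav : ∀ e, ∀ r ∈ Set.Icc (0 : ℝ) 1, ∀ v, v ≠ s e → v ≠ t e → arc e r ≠ pos v) :
    ∃ (k : E → V → ZMod 2) (b : V → V → ZMod 2),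
      (∀ u v, u ≠ v → b u v + b v u = 1) ∧
      ∀ g h, s g ≠ s h → s g ≠ t h → t g ≠ s h → t g ≠ t h →
        (∀ r ∈ Set.Icc (0 : ℝ) 1, ∀ r' ∈ Set.Icc (0 : ℝ) 1, arc g r ≠ arc h r') →
        k g (s h) + k g (t h) + k h (s g) + k h (t g) +
          (b (s h) (t g) + b (t h) (t g) + b (s h) (s g) + b (t h) (s g)) = 0 := by
  choose K hK using fun (e : E) (v : V) => b1_winding (fun r => arc e r - pos v)
  refine ⟨fun e v => (K e v : ZMod 2), fun u v => (b1_beta (pos v - pos u) : ZMod 2), ?_, ?_⟩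
  · intro u v huv
    have hne : pos v - pos u ≠ 0 := sub_ne_zero.2 fun h => huv (hpos h).symm
    have := (b1_beta_neg hne).1
    rw [neg_sub] at this
    have h2 := congrArg (Int.cast : ℤ → ZMod 2) this
    push_cast at h2
    exact h2
  · intro g h hgh1 hgh2 hgh3 hgh4 hdisj
    obtain ⟨L, hL, hLF⟩ := b1_log (fun z => arc g (b1_clamp z.1) - arc h (b1_clamp z.2))
      (by
        have hg : Continuous fun r : ℝ => arc g (b1_clamp r) :=
          (hc g).comp_continuous b1_clamp_cont b1_clamp_mem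
        have hh : Continuous fun r : ℝ => arc h (b1_clamp r) :=
          (hc h).comp_continuous b1_clamp_cont b1_clamp_mem
        exact (hg.comp continuous_fst).sub (hh.comp continuous_snd))
      (fun z => sub_ne_zero.2 (hdisj _ (b1_clamp_mem _) _ (b1_clamp_mem _)))
    have m0 : (0 : ℝ) ∈ Set.Icc (0 : ℝ) 1 := by simp
    have m1 : (1 : ℝ) ∈ Set.Icc (0 : ℝ) 1 := by simp
    have hbot := hK g (s h) (fun r => L (r, 0)) (by fun_prop) (fun r hr => by
      rw [hLF]
      simp only [b1_clamp_of_mem hr, b1_clamp_of_mem m0, h0])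
    have htop := hK g (t h) (fun r => L (r, 1)) (by fun_prop) (fun r hr => by
      rw [hLF]
      simp only [b1_clamp_of_mem hr, b1_clamp_of_mem m1, h1])
    have hleft := hK h (s g) (fun r => L (0, r) + Real.pi * I) (by fun_prop) (fun r hr => by
      rw [exp_add, hLF, exp_pi_mul_I]
      simp only [b1_clamp_of_mem hr, b1_clamp_of_mem m0, h0]
      ring)
    have hright := hK h (t g) (fun r => L (1, r) + Real.pi * I) (by fun_prop) (fun r hr => by
      rw [exp_add, hLF, exp_pi_mul_I]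
      simp only [b1_clamp_of_mem hr, b1_clamp_of_mem m1, h1]
      ring)
    simp only [h0, h1, add_im] at hbot htop hleft hright
    have hpi := Real.pi_pos
    have n1 : pos (t g) - pos (s h) ≠ 0 := sub_ne_zero.2 fun e => hgh3 (hpos e)
    have n2 : pos (s g) - pos (s h) ≠ 0 := sub_ne_zero.2 fun e => hgh1 (hpos e)
    have n3 : pos (t g) - pos (t h) ≠ 0 := sub_ne_zero.2 fun e => hgh4 (hpos e)
    have n4 : pos (s g) - pos (t h) ≠ 0 := sub_ne_zero.2 fun e => hgh2 (hpos e)
    have a1 := (b1_beta_neg n1).2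
    have a2 := (b1_beta_neg n2).2
    have a3 := (b1_beta_neg n3).2
    have a4 := (b1_beta_neg n4).2
    rw [neg_sub] at a1 a2 a3 a4
    have key : (2 * Real.pi) * ((K g (s h) : ℝ) + K h (t g) - K h (s g) - K g (t h)) =
        (2 * Real.pi) * (-(b1_beta (pos (t g) - pos (s h)) : ℝ)
          + b1_beta (pos (s g) - pos (s h)) + b1_beta (pos (t g) - pos (t h))
          - b1_beta (pos (s g) - pos (t h))) := by
      linarith
    have key2 := mul_left_cancel₀ (by positivity) key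
    have key3 : K g (s h) + K h (t g) - K h (s g) - K g (t h) =
        -(b1_beta (pos (t g) - pos (s h)))
          + b1_beta (pos (s g) - pos (s h)) + b1_beta (pos (t g) - pos (t h))
          - b1_beta (pos (s g) - pos (t h)) := by
      exact_mod_cast key2
    have key4 : ((K g (s h) + K g (t h) + K h (s g) + K h (t g) +
        (b1_beta (pos (t g) - pos (s h)) + b1_beta (pos (t g) - pos (t h)) +
          b1_beta (pos (s g) - pos (s h)) + b1_beta (pos (s g) - pos (t h))) : ℤ) : ZMod 2)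
        = 0 := by
      rw [ZMod.intCast_zmod_eq_zero_iff_dvd]
      push_cast
      omega
    push_cast at key4
    exact key4

end Pool.Agent.Helper69.KC
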